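import Pool.Agent.Helper4W.Tha

/-!
# The counting theorem with a uniform bound for the characters

Helper4, page MP_d69e80_al.
-/

set_option autoImplicit false

namespace Pool.Agent.Helper4X

open Pool.Agent.Helper4W Pool.Agent.N600.G3 Pool.Agent.N558.G3
open Pool.Agent.W963.GE (UnitNotRoot MM)
open scoped Pointwise

universe u

/-- the number of zero sums of lazy digits with base `v` is at most `(8 θ) ^ n` -/
def Few {F : Type*} [Field F] [DecidableEq F] (θ : ℝ) (v : F) : Prop :=
  ∀ (n : ℕ) (κ : F), κ ≠ 0 → ((Finset.univ.filter fun f : Fin n → Bool × Bool × Bool =>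
    ∑ i, d3 (f i) • (κ * v ^ (i : ℕ)) = 0).card : ℝ) ≤ (8 * θ) ^ n

/-- collisions of sums with noise -/
lemma noise_countT {F : Type*} [Field F] [DecidableEq F] [CharZero F] (v : F) (θ : ℝ)
    (hx : Few θ v) {A : Type*} [Fintype A] [Nonempty A] (σ : A → F) (hσ : ∀ a, σ a ≠ 0) (R : ℕ) :
    ((Finset.univ.filter fun w : Fin R → A × (Bool × Bool) =>
        ∑ r, d2 (w r).2 • (σ (w r).1 * v ^ (r : ℕ)) = 0).card : ℝ) ≤
      (Fintype.card A : ℝ) ^ R * 4 ^ R * θ ^ R := by
  classical
  have hA : (0 : ℝ) < Fintype.card A := by exact_mod_cast Fintype.card_pos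
  have h := ci_main (fun (a : A) (r : Fin R) => σ a * v ^ (r : ℕ))
  have h2 : ∑ a : A, ((Finset.univ.filter fun w : Fin R → Bool × Bool × Bool =>
      ∑ j, d3 (w j) • (σ a * v ^ (j : ℕ)) = 0).card : ℝ) ≤
      Fintype.card A * (8 * θ) ^ R := by
    refine (Finset.sum_le_sum fun a _ => hx R (σ a) (hσ a)).trans ?_
    rw [Finset.sum_const, Finset.card_univ, nsmul_eq_mul]
  have h3 := h.trans (mul_le_mul_of_nonneg_left h2 (by positivity))
  have e : (Fintype.card A : ℝ) ^ R * 4 ^ R * (Fintype.card A * (8 * θ) ^ R) =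
      (Fintype.card A : ℝ) ^ R * 4 ^ R * θ ^ R * (Fintype.card A * 8 ^ R) := by
    rw [mul_pow]; ring
  rw [e] at h3
  exact le_of_mul_le_mul_right h3 (by positivity)

theorem cntT (M : Type u) [Group M] (F : Type u) [Field F] [DecidableEq F] [CharZero F] (θ : ℝ)
    (hθ0 : 0 < θ) (hθ1 : θ ≤ 1) (K : ℕ) (hK : 0 < K)
    (χ : Fin K → M →* Fˣ) (b : Fin K → M → F) (hb : ∀ k, Crossed (χ k) (b k))
    (hχ : ∀ (k : Fin K) (m : M), ¬ IsOfFinOrder (χ k m) → Few θ ((χ k m : Fˣ) : F))
    (c d : Fin K → M) (hbc : ∀ i j, b i (c j) = 0) (hbd : ∀ i j, i < j → b i (d j) = 0)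
    (hdd : ∀ i, b i (d i) ≠ 0) (hv : ∀ i, ¬ IsOfFinOrder (χ i (c i))) :
    ∃ ε : Fin K → Bool, ∀ R : ℕ,
      (K : ℝ) / 2 * R * (-Real.log θ) ≤
        Real.log (Nat.card (Set.range fun δ : Fin R → Fin K → Bool =>
        (List.ofFn fun r => AA d (δ r) * AA c ε * (AA d (δ r))⁻¹).prod)) := by
  classical
  obtain ⟨ε, hε⟩ := eps_torsion M Fˣ K χ c hv
  set U : M := AA c ε with hU
  have hbU : ∀ k, b k U = 0 := fun k => b_AA (hb k) c (hbc k) ε
  choose g σ hg hX using fun k => N693.G3.t_tri M F (χ k) (b k) (hb k) K d k (hbd k)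
  let u : Fin K → F := fun k => (χ k U : F)
  have hu0 : ∀ k, u k ≠ 0 := fun k => Units.ne_zero _
  set good : Finset (Fin K) := Finset.univ.filter fun k => ¬ IsOfFinOrder (χ k U) with hgood
  have hgc : K ≤ 2 * good.card := by
    have h7 : Set.ncard {k : Fin K | ¬ IsOfFinOrder (χ k (AA c ε))} = good.card := by
      rw [← Set.ncard_coe_finset]
      congr 1
      ext k
      simp [hgood, hU]
    rwa [h7] at hε
  have hroot : ∀ k ∈ good, ∀ m > 0, u k ^ m ≠ 1 := by
    intro k hk m hm h
    apply (Finset.mem_filter.1 hk).2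
    rw [isOfFinOrder_iff_pow_eq_one]
    refine ⟨m, hm, ?_⟩
    apply Units.ext
    rw [Units.val_pow_eq_pow_val, Units.val_one]
    exact h
  have hx : ∀ k ∈ good, Few θ (u k) := fun k hk => hχ k U (Finset.mem_filter.1 hk).2
  refine ⟨ε, fun R => ?_⟩
  let row : (Fin K → Fin R → Bool) → Fin R → Fin K → Bool := fun δ r j => δ j r
  let P : (Fin R → Fin K → Bool) → M := fun δ =>
    (List.ofFn fun r => AA d (δ r) * U * (AA d (δ r))⁻¹).prod
  let X : (Fin K → Fin R → Bool) → Fin K → F := fun δ k => b k (P (row δ))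
  have hform : ∀ δ k, X δ k = (1 - u k) * ∑ r : Fin R, u k ^ (r : ℕ) *
      (g k (row δ r) + (σ k (row δ r) : F) * (if δ k r then b k (d k) else 0)) := by
    intro δ k
    show b k (List.ofFn fun r => AA d (row δ r) * U * (AA d (row δ r))⁻¹).prod = _
    rw [N693.G3.t_prd M F (χ k) (b k) (hb k) U (hbU k) R (fun r => AA d (row δ r))]
    congr 1
    refine Finset.sum_congr rfl fun r _ => ?_
    rw [hX]
  have hupd : ∀ δ k y, X (Function.update δ k y) k =
      (1 - u k) * ∑ r : Fin R, u k ^ (r : ℕ) * g k (row δ r) +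
      ∑ r : Fin R, (if y r then ((1 - u k) * b k (d k) * (σ k (row δ r) : F)) *
        u k ^ (r : ℕ) else 0) := by
    intro δ k y
    rw [hform, Finset.mul_sum, Finset.mul_sum, ← Finset.sum_add_distrib]
    refine Finset.sum_congr rfl fun r _ => ?_
    have e := hg k (row (Function.update δ k y) r) (row δ r) (fun i hi => by
      show Function.update δ k y i r = δ i r
      rw [Function.update_of_ne hi.ne])
    rw [e.1, e.2, Function.update_self]
    split_ifs
    · ring
    · ring
  have hdep : ∀ k δ δ', (∀ i ≤ k, δ i = δ' i) → X δ k = X δ' k := by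
    intro k δ δ' h
    rw [hform, hform]
    congr 1
    refine Finset.sum_congr rfl fun r _ => ?_
    have e := hg k (row δ r) (row δ' r) (fun i hi => congrFun (h i hi.le) r)
    rw [e.1, e.2, congrFun (h k le_rfl) r]
  have hcol : ∀ δ k y, (X (Function.update δ k y) k = X δ k ↔
      ∑ r : Fin R, d2 (y r, δ k r) • (((1 - u k) * b k (d k) * (σ k (row δ r) : F)) *
        u k ^ (r : ℕ)) = 0) := by
    intro δ k y
    have h1 := hupd δ k y
    have h2 := hupd δ k (δ k)
    rw [Function.update_eq_self] at h2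
    rw [h1, h2, add_right_inj, ← sub_eq_zero, ← Finset.sum_sub_distrib]
    have e : ∀ r : Fin R, ((if y r then ((1 - u k) * b k (d k) * (σ k (row δ r) : F)) *
        u k ^ (r : ℕ) else 0) - (if δ k r then ((1 - u k) * b k (d k) * (σ k (row δ r) : F)) *
        u k ^ (r : ℕ) else 0)) = d2 (y r, δ k r) • (((1 - u k) * b k (d k) *
        (σ k (row δ r) : F)) * u k ^ (r : ℕ)) := by
      intro r
      unfold d2
      cases y r <;> cases δ k r <;> simp
    simp_rw [e]
  set Ω : ℝ := 2 ^ (K * R) with hΩ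
  have hΩpos : 0 < Ω := by positivity
  have hcardΩ : (Fintype.card (Fin K → Fin R → Bool) : ℝ) = Ω := by
    rw [Fintype.card_fun, Fintype.card_fun, Fintype.card_bool, Fintype.card_fin, Fintype.card_fin,
      hΩ]
    push_cast
    rw [← pow_mul, mul_comm]
  -- the collisions
  let cc : (Fin K → Fin R → Bool) → Fin K → ℕ := fun δ k =>
    Nat.card {y : Fin R → Bool // X (Function.update δ k y) k = X δ k}
  have hccpos : ∀ δ k, 1 ≤ cc δ k := by
    intro δ k
    have : Nonempty {y : Fin R → Bool // X (Function.update δ k y) k = X δ k} :=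
      ⟨⟨δ k, by rw [Function.update_eq_self]⟩⟩
    exact Nat.card_pos
  have hccle : ∀ δ k, cc δ k ≤ 2 ^ R := by
    intro δ k
    have : cc δ k ≤ Nat.card (Fin R → Bool) :=
      Nat.card_le_card_of_injective _ Subtype.val_injective
    refine this.trans (le_of_eq ?_)
    simp
  have hsum : ∀ k ∈ good, ∑ δ : Fin K → Fin R → Bool, (cc δ k : ℝ) ≤
      Ω * (2 * θ) ^ R := by
    intro k hk
    have hu1 : 1 - u k ≠ 0 := by
      intro h
      apply hroot k hk 1 one_pos
      rw [pow_one]
      exact (sub_eq_zero.1 h).symm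
    have hnc := noise_countT (u k) θ (hx k hk)
      (fun a : Fin K → Bool => (1 - u k) * b k (d k) * (σ k a : F))
      (fun a => mul_ne_zero (mul_ne_zero hu1 (hdd k)) (Units.ne_zero _)) R
    let S := Finset.univ.filter fun p : (Fin K → Fin R → Bool) × (Fin R → Bool) × (Fin R → Bool) =>
      X (Function.update p.1 k p.2.1) k = X p.1 k
    have hS : (S.card : ℝ) = (∑ δ : Fin K → Fin R → Bool, (cc δ k : ℝ)) * 2 ^ R := by
      have h1 : S.card = ∑ δ : Fin K → Fin R → Bool, cc δ k * 2 ^ R := by
        show (Finset.univ.filter _).card = _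
        rw [Finset.card_filter, Fintype.sum_prod_type]
        refine Finset.sum_congr rfl fun δ _ => ?_
        rw [Fintype.sum_prod_type]
        have e1 : ∀ y : Fin R → Bool, (∑ _z : Fin R → Bool,
            if X (Function.update δ k y) k = X δ k then 1 else 0) =
            (if X (Function.update δ k y) k = X δ k then 1 else 0) * 2 ^ R := by
          intro y
          rw [Finset.sum_const, Finset.card_univ, Fintype.card_fun, Fintype.card_bool,
            Fintype.card_fin, smul_eq_mul, mul_comm]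
        refine (Finset.sum_congr rfl fun y _ => e1 y).trans ?_
        rw [← Finset.sum_mul, ← Finset.card_filter]
        congr 1
        show _ = Nat.card _
        rw [Nat.card_eq_fintype_card, Fintype.card_subtype]
      rw [h1]
      push_cast
      rw [Finset.sum_mul]
    have hle : S.card ≤ (Finset.univ.filter fun w : Fin R → (Fin K → Bool) × (Bool × Bool) =>
        ∑ r, d2 (w r).2 • ((1 - u k) * b k (d k) * (σ k (w r).1 : F) * u k ^ (r : ℕ)) = 0).card := by
      refine Finset.card_le_card_of_injOn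
        (fun p r => (Function.update (row p.1 r) k (p.2.2 r), (p.2.1 r, p.1 k r))) ?_ ?_
      · rintro ⟨δ, y, z⟩ hp
        have hp' := (Finset.mem_filter.1 (Finset.mem_coe.1 hp)).2
        rw [Finset.mem_coe, Finset.mem_filter]
        refine ⟨Finset.mem_univ _, ?_⟩
        have h1 := (hcol δ k y).1 hp'
        rw [← h1]
        refine Finset.sum_congr rfl fun r _ => ?_
        have e := (hg k (Function.update (row δ r) k (z r)) (row δ r) (fun i hi => by
          rw [Function.update_of_ne hi.ne])).2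
        simp only
        rw [e]
      · rintro ⟨δ, y, z⟩ _ ⟨δ', y', z'⟩ _ h
        have h1 : ∀ r, Function.update (row δ r) k (z r) = Function.update (row δ' r) k (z' r) ∧
            y r = y' r ∧ δ k r = δ' k r := by
          intro r
          have := congrFun h r
          simp only [Prod.mk.injEq] at this
          exact this
        have h2 : δ = δ' := by
          funext j r
          by_cases hj : j = k
          · rw [hj]; exact (h1 r).2.2
          · have := congrFun (h1 r).1 j
            rw [Function.update_of_ne hj, Function.update_of_ne hj] at this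
            exact this
        have h3 : y = y' := funext fun r => (h1 r).2.1
        have h4 : z = z' := by
          funext r
          have := congrFun (h1 r).1 k
          rw [Function.update_self, Function.update_self] at this
          exact this
        rw [h2, h3, h4]
    have h5 : (S.card : ℝ) ≤ Ω * 4 ^ R * θ ^ R := by
      refine le_trans (by exact_mod_cast hle) (hnc.trans (le_of_eq ?_))
      congr 2
      rw [Fintype.card_fun, Fintype.card_bool, Fintype.card_fin, hΩ]
      push_cast
      rw [← pow_mul]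
    rw [hS] at h5
    have h6 : Ω * 4 ^ R * θ ^ R = Ω * (2 * θ) ^ R * 2 ^ R := by
      rw [mul_pow, show (4 : ℝ) ^ R = 2 ^ R * 2 ^ R by rw [← mul_pow]; norm_num]
      ring
    rw [h6] at h5
    exact le_of_mul_le_mul_right h5 (by positivity)
  -- logarithms
  have hlogsum : ∀ k ∈ good, ∑ δ : Fin K → Fin R → Bool, Real.log (cc δ k : ℝ) ≤
      Ω * (R * (Real.log 2 + Real.log θ)) := by
    intro k hk
    set m : ℝ := (2 * θ) ^ R with hm
    have hmpos : 0 < m := by positivity
    have hlm : Real.log m = R * (Real.log 2 + Real.log θ) := by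
      rw [hm, Real.log_pow, Real.log_mul (by norm_num) hθ0.ne']
    have h1 : ∀ δ : Fin K → Fin R → Bool, Real.log (cc δ k : ℝ) ≤
        Real.log m + ((cc δ k : ℝ) / m - 1) := by
      intro δ
      have hc : (0 : ℝ) < cc δ k := by exact_mod_cast hccpos δ k
      have h2 := Real.log_le_sub_one_of_pos (div_pos hc hmpos)
      rw [Real.log_div hc.ne' hmpos.ne'] at h2
      linarith
    refine (Finset.sum_le_sum fun δ _ => h1 δ).trans ?_
    rw [Finset.sum_add_distrib, Finset.sum_sub_distrib, ← Finset.sum_div, Finset.sum_const,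
      Finset.sum_const, Finset.card_univ, nsmul_eq_mul, nsmul_eq_mul, hcardΩ, hlm]
    have h3 : (∑ δ : Fin K → Fin R → Bool, (cc δ k : ℝ)) / m ≤ Ω := by
      rw [div_le_iff₀ hmpos]
      exact hsum k hk
    linarith
  have hlogbad : ∀ k, ∑ δ : Fin K → Fin R → Bool, Real.log (cc δ k : ℝ) ≤
      Ω * (R * Real.log 2) := by
    intro k
    have h1 : ∀ δ : Fin K → Fin R → Bool, Real.log (cc δ k : ℝ) ≤ R * Real.log 2 := by
      intro δ
      rw [← Real.log_pow]
      apply Real.log_le_log
      · exact_mod_cast hccpos δ k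
      · exact_mod_cast hccle δ k
    refine (Finset.sum_le_sum fun δ _ => h1 δ).trans ?_
    rw [Finset.sum_const, Finset.card_univ, nsmul_eq_mul, hcardΩ]
  have hE2 := N787.G3.t_ent2 (Fin K → Fin R → Bool) (Fin K → F) X
  have hE3 := N99.G3.t_ent3 N711.G3.t_ent1 K (Fin R → Bool) F X hdep
  set N : ℕ := Nat.card (Set.range X) with hN
  have hNpos : 0 < N := by
    rw [hN, Nat.card_coe_set_eq]
    exact (Set.ncard_pos (Set.finite_range X)).2 (Set.range_nonempty X)
  rw [hcardΩ] at hE2
  have hlogΩ : Real.log Ω = K * R * Real.log 2 := by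
    rw [hΩ, Real.log_pow]
    push_cast
    ring
  rw [hlogΩ] at hE2
  have hlθ : Real.log θ ≤ 0 := Real.log_nonpos hθ0.le hθ1
  have htot : ∑ δ : Fin K → Fin R → Bool, ∑ k, Real.log (cc δ k : ℝ) ≤
      Ω * (K * R * Real.log 2) + Ω * (R * (good.card * Real.log θ)) := by
    rw [Finset.sum_comm]
    have h1 : ∀ k : Fin K, ∑ δ : Fin K → Fin R → Bool, Real.log (cc δ k : ℝ) ≤
        Ω * (R * Real.log 2) + Ω * (R * (if k ∈ good then Real.log θ else 0)) := by
      intro k
      split_ifs with hk
      · have := hlogsum k hk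
        linarith
      · have := hlogbad k
        simpa using this
    refine (Finset.sum_le_sum fun k _ => h1 k).trans (le_of_eq ?_)
    rw [Finset.sum_add_distrib, Finset.sum_const, Finset.card_univ, Fintype.card_fin,
      ← Finset.mul_sum, ← Finset.mul_sum, Finset.sum_ite_mem, Finset.univ_inter, nsmul_eq_mul,
      Finset.sum_const, nsmul_eq_mul]
    ring
  have hlow : (K : ℝ) / 2 * (-Real.log θ) ≤ -(good.card * Real.log θ) := by
    have h2 : (K : ℝ) / 2 ≤ good.card := by
      have : (K : ℝ) ≤ 2 * good.card := by exact_mod_cast hgc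
      linarith
    nlinarith
  have hmain : (K : ℝ) / 2 * R * (-Real.log θ) ≤ Real.log N := by
    have h1 : Ω * (K * R * Real.log 2 - Real.log N) ≤
        Ω * (K * R * Real.log 2) + Ω * (R * (good.card * Real.log θ)) := by
      refine hE2.trans (le_trans hE3 ?_)
      exact htot
    have h2 : Ω * (R * (-(good.card * Real.log θ))) ≤ Ω * Real.log N := by linarith
    have h3 := le_of_mul_le_mul_left h2 hΩpos
    have hR : (0 : ℝ) ≤ R := Nat.cast_nonneg R
    have h4 := mul_le_mul_of_nonneg_left hlow hR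
    linarith
  refine hmain.trans ?_
  apply Real.log_le_log (by exact_mod_cast hNpos)
  have hsub : Set.range X ⊆ (fun y : M => fun k => b k y) '' Set.range P := by
    rintro _ ⟨δ, rfl⟩
    exact ⟨P (row δ), ⟨row δ, rfl⟩, rfl⟩
  have hPfin : (Set.range P).Finite := Set.finite_range P
  have hfinal : N ≤ Nat.card (Set.range P) := by
    rw [hN, Nat.card_coe_set_eq, Nat.card_coe_set_eq]
    exact (Set.ncard_le_ncard hsub (hPfin.image _)).trans (Set.ncard_image_le hPfin)
  exact_mod_cast hfinal

theorem thaT (G : Type u) [Group G] (T : Set G) (hfin : T.Finite) (h1T : 1 ∈ T) (hinv : T⁻¹ = T)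
    (hgen : Subgroup.closure T = ⊤) (F : Type u) [Field F] [DecidableEq F] [CharZero F] (θ : ℝ)
    (hθ0 : 0 < θ) (hθ1 : θ ≤ 1)
    (χ : commutator G →* Fˣ) (b : commutator G → F) (hb : Crossed χ b)
    (hχ : ∀ m : commutator G, ¬ IsOfFinOrder (χ m) → Few θ ((χ m : Fˣ) : F))
    (c : commutator G) (hc : (c : G) ∈ CT T) (hbc : b c = 0) (hvc : ¬ IsOfFinOrder (χ c))
    (hne : ∃ m, b m ≠ 0) :
    ∃ K : ℕ, 0 < K ∧ ∀ R : ℕ,
      (K : ℝ) / 2 * R * (-Real.log θ) ≤ Real.log (Nat.card ↥(T ^ (22 * K * R))) := by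
  obtain ⟨K, s, d, hK, hs, hd, hi, hii, hiii⟩ :=
    N918.G3.t_geo G T h1T hinv hgen F χ b hb c hc hbc hne
  let g : Fin K → G := fun i => (hh s (K - 1 - i))⁻¹
  let χ' : Fin K → commutator G →* Fˣ := fun i => χ.comp (cj (g i))
  let b' : Fin K → commutator G → F := fun i m => b (cj (g i) m)
  let c' : Fin K → commutator G := fun j => cj (hh s (K - 1 - j)) c
  let d' : Fin K → commutator G := fun j => cj (hh s (K + (K - 1 - j))) d
  have hb' : ∀ k, Crossed (χ' k) (b' k) := by
    intro k m m'
    show b (cj (g k) (m * m')) = b (cj (g k) m) + (χ (cj (g k) m) : F) * b (cj (g k) m')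
    rw [map_mul, hb]
  have e1 : ∀ i j, b' i (c' j) = 0 := by
    intro i j
    show b (cj (g i) (cj (hh s (K - 1 - j)) c)) = 0
    rw [cj_cj]
    exact hi _ (by omega) _ (by omega)
  have e2 : ∀ i j, i < j → b' i (d' j) = 0 := by
    intro i j hij
    show b (cj (g i) (cj (hh s (K + (K - 1 - j))) d)) = 0
    rw [cj_cj]
    have : (i : ℕ) < j := hij
    exact hii _ _ (by omega) (by omega)
  have e3 : ∀ i, b' i (d' i) ≠ 0 := by
    intro i
    show b (cj (g i) (cj (hh s (K + (K - 1 - i))) d)) ≠ 0
    rw [cj_cj]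
    exact hiii _ (by omega)
  have e4 : ∀ i, ¬ IsOfFinOrder (χ' i (c' i)) := by
    intro i
    show ¬ IsOfFinOrder (χ (cj (g i) (cj (hh s (K - 1 - i)) c)))
    rw [cj_cj]
    have : g i * hh s (K - 1 - i) = 1 := inv_mul_cancel _
    rw [this, cj_one]
    exact hvc
  obtain ⟨ε, hε⟩ := cntT (commutator G) F θ hθ0 hθ1 K hK χ' b' hb'
    (fun k m h => hχ (cj (g k) m) h) c' d' e1 e2 e3 e4
  obtain ⟨hL1, hL2⟩ := N454.G3.t_len G T h1T hinv s hs c d hc hd K hK
  refine ⟨K, hK, fun R => (hε R).trans ?_⟩
  have hmem : ∀ δ : Fin R → Fin K → Bool,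
      ((((List.ofFn fun r => AA d' (δ r) * AA c' ε * (AA d' (δ r))⁻¹).prod :
        commutator G)) : G) ∈ T ^ (22 * K * R) := by
    intro δ
    have h5 : ((((List.ofFn fun r => AA d' (δ r) * AA c' ε * (AA d' (δ r))⁻¹).prod :
        commutator G)) : G) = (List.ofFn fun r => (((AA d' (δ r) * AA c' ε * (AA d' (δ r))⁻¹ :
          commutator G)) : G)).prod := by
      have := map_list_prod (commutator G).subtype
        (List.ofFn fun r => AA d' (δ r) * AA c' ε * (AA d' (δ r))⁻¹)
      rw [List.map_ofFn] at this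
      exact this
    rw [h5]
    apply prod_mem_pow
    intro r
    have h6 : ((AA d' (δ r) : commutator G) : G) ∈ T ^ (8 * K) := by
      have := AA_map (commutator G).subtype d' (δ r)
      show (commutator G).subtype _ ∈ _
      rw [this]
      exact hL2 (δ r)
    have h7 : ((AA c' ε : commutator G) : G) ∈ T ^ (6 * K) := by
      have := AA_map (commutator G).subtype c' ε
      show (commutator G).subtype _ ∈ _
      rw [this]
      exact hL1 ε
    have h8 : T ^ (22 * K) = T ^ (8 * K) * T ^ (6 * K) * T ^ (8 * K) := by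
      rw [← pow_add, ← pow_add]; congr 1; omega
    rw [h8]
    exact Set.mul_mem_mul (Set.mul_mem_mul h6 h7) (inv_mem_pow hinv h6)
  have hfinT : Finite ↥(T ^ (22 * K * R)) := by
    exact (finite_pow hfin _).to_subtype
  have hfinR : Finite (Set.range fun δ : Fin R → Fin K → Bool =>
      (List.ofFn fun r => AA d' (δ r) * AA c' ε * (AA d' (δ r))⁻¹).prod) := Set.finite_range _
  apply Real.log_le_log
  · have : Nonempty (Set.range fun δ : Fin R → Fin K → Bool =>
      (List.ofFn fun r => AA d' (δ r) * AA c' ε * (AA d' (δ r))⁻¹).prod) :=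
      ⟨⟨_, fun _ _ => true, rfl⟩⟩
    exact_mod_cast Nat.card_pos
  · have hle : Nat.card (Set.range fun δ : Fin R → Fin K → Bool =>
        (List.ofFn fun r => AA d' (δ r) * AA c' ε * (AA d' (δ r))⁻¹).prod) ≤
        Nat.card ↥(T ^ (22 * K * R)) := by
      refine Nat.card_le_card_of_injective
        (fun x : Set.range _ => (⟨((x : commutator G) : G), ?_⟩ : ↥(T ^ (22 * K * R)))) ?_
      · obtain ⟨_, δ, rfl⟩ := x
        exact hmem δ
      · intro x y hxy
        have h9 := congrArg (fun z : ↥(T ^ (22 * K * R)) => (z : G)) hxy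
        exact Subtype.ext (Subtype.ext h9)
    exact_mod_cast hle

end Pool.Agent.Helper4X
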