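import Pool.Agent.Helper4X.Gap
import Pool.Agent.W963.GE.Dob

/-!
# Degrees of eigenvalues

Helper4, page MP_d69e80_al.
-/

set_option autoImplicit false

namespace Pool.Agent.Helper4X

open Polynomial TensorProduct
open Pool.Agent.W963.GE (UnitNotRoot MM)

variable {M : Type*} [AddCommGroup M]

/-- the degree of an integral eigenvalue is at most the dimension -/
theorem degree_le [Module.Finite ℤ M] (g : Module.End ℤ M) {z : ℂ} (hz : IsIntegral ℤ z)
    (h : Module.End.HasEigenvalue (LinearMap.baseChange ℂ g : Module.End ℂ (ℂ ⊗[ℤ] M)) z) :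
    (minpoly ℤ z).natDegree ≤ Module.finrank ℂ (ℂ ⊗[ℤ] M) := by
  set A : Module.End ℚ (ℚ ⊗[ℤ] M) := g.baseChange ℚ with hA
  set e := TensorProduct.AlgebraTensorModule.cancelBaseChange ℤ ℚ ℂ ℂ M with he
  have hcomm : ∀ w : ℂ ⊗[ℚ] (ℚ ⊗[ℤ] M),
      e ((LinearMap.baseChange ℂ A) w) = (LinearMap.baseChange ℂ g) (e w) := by
    intro w
    induction w using TensorProduct.induction_on with
    | zero => simp
    | add a b ha hb => rw [map_add, map_add, ha, hb, map_add, map_add]
    | tmul a w =>
      induction w using TensorProduct.induction_on with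
      | zero => simp
      | add a' b' ha hb =>
        rw [TensorProduct.tmul_add, map_add, map_add, ha, hb, map_add, map_add]
      | tmul q m =>
        rw [LinearMap.baseChange_tmul, hA, LinearMap.baseChange_tmul, he,
          TensorProduct.AlgebraTensorModule.cancelBaseChange_tmul,
          TensorProduct.AlgebraTensorModule.cancelBaseChange_tmul, LinearMap.baseChange_tmul]
  obtain ⟨v, hv⟩ := h.exists_hasEigenvector
  have h1 : Module.End.HasEigenvalue
      (LinearMap.baseChange ℂ A : Module.End ℂ (ℂ ⊗[ℚ] (ℚ ⊗[ℤ] M))) z := by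
    refine Module.End.hasEigenvalue_of_hasEigenvector (x := e.symm v) ⟨?_, ?_⟩
    · rw [Module.End.mem_eigenspace_iff]
      apply e.injective
      rw [hcomm, LinearEquiv.apply_symm_apply, hv.apply_eq_smul, map_smul,
        LinearEquiv.apply_symm_apply]
    · intro h0
      exact hv.2 (by rw [← e.apply_symm_apply v, h0, map_zero])
  rw [Module.End.hasEigenvalue_iff_isRoot_charpoly, LinearMap.charpoly_baseChange, IsRoot.def,
    eval_map, ← aeval_def] at h1
  have h2 : minpoly ℚ z ∣ LinearMap.charpoly A := minpoly.dvd ℚ z h1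
  have h3 := natDegree_le_of_dvd h2 (LinearMap.charpoly_monic A).ne_zero
  rw [LinearMap.charpoly_natDegree] at h3
  have h4 : Module.finrank ℂ (ℂ ⊗[ℤ] M) = Module.finrank ℚ (ℚ ⊗[ℤ] M) := by
    rw [← Module.finrank_baseChange (R := ℂ) (S := ℚ) (M' := ℚ ⊗[ℤ] M)]
    exact (e.finrank_eq).symm
  rw [h4]
  refine le_trans (le_of_eq ?_) h3
  rw [minpoly.isIntegrallyClosed_eq_field_fractions' ℚ hz, (minpoly.monic hz).natDegree_map]

end Pool.Agent.Helper4X
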