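import Pool.Agent.Helper4X.Red

/-!
# Growth gap for derived length three in terms of the eigenvalues

Helper4, page MP_d69e80_al.
-/

set_option autoImplicit false

namespace Pool.Agent.Helper4X

open scoped Pointwise commutatorElement TensorProduct
open Subgroup Polynomial Filter Topology
open Pool.Agent.Helper4W Pool.Agent.N600.G3
open Pool.Agent.W963.GE (UnitNotRoot MM base gam)
open Pool.Agent.TH53.UG (act act_of aeval_comm eig_of_root integral_of_root)
open Pool.Agent.Helper111.EN.NSc (NS NS_ext NS_of_nilpotent_fg NS_top_iff fg_map_subtype_iff)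

universe u

/-- the property `P` for all eigenvalues of the elements of `M` on `ℂ ⊗ (M')^ab` that are units and
not roots of unity -/
def EigC (M : Type*) [Group M] (P : ℂ → Prop) : Prop :=
  ∀ (t : M) (z : ℂ), Module.End.HasEigenvalue (LinearMap.baseChange ℂ (act (commutator M) t) :
    Module.End ℂ (ℂ ⊗[ℤ] Additive (Abelianization (commutator M)))) z → UnitNotRoot z → P z

lemma EigC.ann {M : Type*} [Group M] {P : ℂ → Prop} (h : EigC M P)
    (hf : Module.Finite ℤ (Additive (Abelianization (commutator M)))) : AnnProp M P := by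
  intro t b x hx hp
  exact h t x (eig_of_root (act (commutator M) t) b hp (minpoly.aeval ℤ x)) hx

/-- the abelianization of the second derived subgroup is finitely generated -/
lemma finite_second {H : Type u} [Group H] (hNS : NS (⊤ : Subgroup (H ⧸ derivedSeries H 3))) :
    Module.Finite ℤ (Additive (Abelianization (commutator (commutator H)))) := by
  set N := commutator (commutator H) with hN
  let ι : N →* H := (commutator H).subtype.comp N.subtype
  have hι : Function.Injective ι :=
    (commutator H).subtype_injective.comp N.subtype_injective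
  have hmap : N.map (commutator H).subtype = derivedSeries H 2 := by
    rw [derived_two]
    exact map_subtype_commutator _
  have hrange : ι.range = derivedSeries H 2 := by
    rw [← hmap]
    ext x
    constructor
    · rintro ⟨a, rfl⟩
      exact ⟨(a : commutator H), a.2, rfl⟩
    · rintro ⟨a, ha, rfl⟩
      exact ⟨⟨a, ha⟩, rfl⟩
  have hmap3 : (commutator N).map ι = derivedSeries H 3 := by
    show (⁅(⊤ : Subgroup N), (⊤ : Subgroup N)⁆).map ι = _
    rw [Subgroup.map_commutator, ← MonoidHom.range_eq_map, hrange, ← derivedSeries_succ]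
  let π : H →* H ⧸ derivedSeries H 3 := QuotientGroup.mk' (derivedSeries H 3)
  let ψ : N →* H ⧸ derivedSeries H 3 := π.comp ι
  have hker : ψ.ker = commutator N := by
    ext a
    rw [MonoidHom.mem_ker]
    constructor
    · intro h
      have h3 : ι a ∈ derivedSeries H 3 := (QuotientGroup.eq_one_iff _).1 h
      rw [← hmap3] at h3
      obtain ⟨a', ha', he⟩ := h3
      rw [← hι he]
      exact ha'
    · intro h
      apply (QuotientGroup.eq_one_iff _).2
      rw [← hmap3]
      exact ⟨a, h, rfl⟩
  have hfg : Group.FG ψ.range := (Group.fg_iff_subgroup_fg _).2 (hNS _ le_top)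
  have e : N ⧸ ψ.ker ≃* ψ.range := QuotientGroup.quotientKerEquivRange ψ
  have hfg2 : Group.FG (N ⧸ ψ.ker) := Group.fg_of_surjective (f := e.symm.toMonoidHom) e.symm.surjective
  have hfg3 : Group.FG (Abelianization N) := by
    have e2 : N ⧸ ψ.ker ≃* Abelianization N := QuotientGroup.quotientMulEquivOfEq hker
    exact Group.fg_of_surjective (f := e2.toMonoidHom) e2.surjective
  exact Module.Finite.iff_addGroup_fg.2 (GroupFG.iff_add_fg.1 hfg3)

/-- growth bound for the second level -/
theorem level_two {H : Type u} [Group H] (T : Set H) (hfin : T.Finite) (h1T : 1 ∈ T)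
    (hinv : T⁻¹ = T) (hgen : closure T = ⊤) (hnil : Group.IsNilpotent (derivedSeries H 2))
    (hnv : ¬ Group.IsVirtuallyNilpotent (commutator H)) {P : ℂ → Prop}
    (hE : EigC (commutator H) P) {μ : ℝ} (hμ : 1 ≤ μ)
    (hP : Module.Finite ℤ (Additive (Abelianization (commutator (commutator H)))) →
      ∀ x : ℂ, P x → μ ≤ MM x) :
    min 1 (Real.log μ) / 352 ≤ H746UG.rho T := by
  have hlog0 : 0 ≤ Real.log μ := Real.log_nonneg hμ
  rcases N600.G3.main T hfin h1T hinv hgen with h | ⟨hNS, -⟩
  · refine le_trans ?_ (rho_ge_88 T h)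
    have h2 := Real.log_two_gt_d9
    have h3 : min 1 (Real.log μ) ≤ 1 := min_le_left _ _
    rw [div_le_div_iff₀ (by norm_num) (by norm_num)]
    linarith
  · set Q := H ⧸ derivedSeries H 3 with hQ
    let π : H →* Q := QuotientGroup.mk' (derivedSeries H 3)
    have hπ : Function.Surjective π := QuotientGroup.mk'_surjective _
    have hmf := finite_second hNS
    have hA : AnnProp (commutator H) fun x => μ ≤ MM x := by
      intro t b x hx hp
      exact hP hmf x (hE.ann hmf t b x hx hp)
    have hπc : ∀ m : commutator H, π (m : H) ∈ commutator Q := by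
      intro m
      have h1 : (commutator H).map π ≤ commutator Q := by
        rw [_root_.commutator_def, _root_.commutator_def, map_commutator]
        exact commutator_mono le_top le_top
      exact h1 ⟨m, m.2, rfl⟩
    let ψ : commutator H →* commutator Q :=
      { toFun := fun m => ⟨π (m : H), hπc m⟩
        map_one' := by
          apply Subtype.ext
          show π ((1 : commutator H) : H) = 1
          rw [OneMemClass.coe_one, map_one]
        map_mul' := by
          intro a b
          apply Subtype.ext
          show π ((a * b : commutator H) : H) = π a * π b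
          rw [← map_mul]; rfl }
    have hψ : Function.Surjective ψ := by
      rintro ⟨y, hy⟩
      have h1 : commutator Q ≤ (commutator H).map π := by
        rw [_root_.commutator_def, _root_.commutator_def, map_commutator,
          ← MonoidHom.range_eq_map, MonoidHom.range_eq_top.2 hπ]
      obtain ⟨x, hx, he⟩ := h1 hy
      exact ⟨⟨x, hx⟩, Subtype.ext he⟩
    have hAQ : AnnProp (commutator Q) fun x => μ ≤ MM x := hA.of_surj ψ hψ
    have hnvQ : ¬ Group.IsVirtuallyNilpotent (commutator Q) := fun h => hnv (vn_hall h hnil)
    have hFG : (commutator Q).FG := hNS _ le_top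
    have hfg : (commutator (commutator Q)).FG := by
      rw [← fg_map_subtype_iff]
      exact hNS _ le_top
    obtain ⟨K, hK, h⟩ := reducT Q (π '' T) (hfin.image π) ⟨1, h1T, map_one π⟩
      (by rw [← Set.image_inv, hinv])
      (by
        rw [← MonoidHom.map_closure, hgen, ← MonoidHom.range_eq_map]
        exact MonoidHom.range_eq_top.2 hπ)
      hFG (abel_of_derived_three (derived_quot 3)) hfg hnvQ hμ hAQ
    refine le_trans ?_ (rho_map_le π T hfin h1T)
    have h1 : Tendsto (fun R : ℕ => Real.log (Nat.card ↥((π '' T) ^ (22 * K * R))) /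
        (22 * K * R : ℕ)) atTop (𝓝 (H746UG.rho (π '' T))) :=
      (H746UG.tendsto_rho (π '' T)).comp
        (tendsto_id.const_mul_atTop' (show 0 < 22 * K by omega))
    refine ge_of_tendsto h1 ?_
    filter_upwards [eventually_gt_atTop 0] with R hR
    have hR' : (0 : ℝ) < R := by exact_mod_cast hR
    have hK' : (0 : ℝ) < K := by exact_mod_cast hK
    have hpos : (0 : ℝ) < ((22 * K * R : ℕ) : ℝ) := by
      push_cast
      positivity
    rw [le_div_iff₀ hpos]
    refine le_trans ?_ (h R)
    have h2 := thM_log hμ
    push_cast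
    have h3 : min 1 (Real.log μ) / 352 * (22 * K * R) =
        (K : ℝ) / 2 * R * (min 1 (Real.log μ) / 8) := by ring
    rw [h3]
    exact mul_le_mul_of_nonneg_left h2 (by positivity)

/-- **growth gap in terms of the eigenvalues on both levels** -/
theorem gapT {G : Type u} [Group G] (S : Set G) (hfin : S.Finite) (hsym : S⁻¹ = S)
    (hgen : closure S = ⊤) (H : Subgroup G) (d : ℕ) (hH : H.index ≠ 0) (hd : H.index ≤ d)
    (hnil2 : Group.IsNilpotent (derivedSeries H 2))
    (hnil1 : Group.IsNilpotent (commutator H) ∨ ¬ Group.IsVirtuallyNilpotent (commutator H))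
    {P P' : ℂ → Prop} (hE : EigC H P) (hE' : EigC (commutator H) P') {μ : ℝ} (hμ : 1 ≤ μ)
    (hP : Module.Finite ℤ (Additive (Abelianization (commutator H))) → ∀ x : ℂ, P x → μ ≤ MM x)
    (hP' : Module.Finite ℤ (Additive (Abelianization (commutator (commutator H)))) →
      ∀ x : ℂ, P' x → μ ≤ MM x) :
    Group.IsVirtuallyNilpotent G ∨
      min 1 (Real.log μ) / (352 * (2 * d - 1)) ≤ H746UG.rho S := by
  have hd1 : 1 ≤ d := by omega
  have hpos : (0 : ℝ) < 2 * d - 1 := by
    have : (1 : ℝ) ≤ d := by exact_mod_cast hd1
    linarith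
  have hlog0 : 0 ≤ Real.log μ := Real.log_nonneg hμ
  by_cases hcase : Group.IsNilpotent (gam H 1) ∨
      ¬ Group.IsVirtuallyNilpotent (H ⧸ ⁅gam H 1, gam H 1⁆)
  · have hc2 : min 1 (Real.log μ) / 8 ≤ Real.log 2 := by
      have h1 : min 1 (Real.log μ) ≤ 1 := min_le_left _ _
      have := Real.log_two_gt_d9
      linarith
    have hc : Module.Finite ℤ (Additive (Abelianization (gam H 1))) →
        ∀ (t : H) (b : Additive (Abelianization (gam H 1))) (x : ℂ),
        x ≠ 0 → (∀ n > 0, x ^ n ≠ 1) →
        (∀ p : Polynomial ℤ, (Polynomial.aeval (act (gam H 1) t) p) b = 0 →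
          Polynomial.aeval x p = 0) → min 1 (Real.log μ) / 8 ≤ H746UG.eta x := by
      intro hMf t b x hx0 hx hp
      have hxi : IsIntegral ℤ x := integral_of_root _ b hp
      by_cases hi : IsIntegral ℤ x⁻¹
      · have hu : UnitNotRoot x := ⟨hx0, hxi, hi, hx⟩
        have hEx := eig_of_root (act (gam H 1) t) b hp (minpoly.aeval ℤ x)
        have h1 : μ ≤ MM x := hP hMf x (hE t x hEx hu)
        refine le_trans ?_ (W963.GE.eta_ge x hx0 hxi)
        refine le_trans ?_ (W963.GE.log_base_ge (hμ.trans h1))
        apply div_le_div_of_nonneg_right _ (by norm_num)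
        exact min_le_min le_rfl (Real.log_le_log (by linarith) h1)
      · rw [H746UG.eta_eq_log_two x hx0 (fun h => hi h.2)]
        exact hc2
    rcases TH53.UG.gap_general (k := 1) (d := d) le_rfl S hfin hgen H hH hd hcase hc2 hc with h | h
    · exact Or.inl h
    · right
      refine le_trans ?_ h
      rw [div_div]
      apply div_le_div_of_nonneg_left (le_min zero_le_one hlog0) (by positivity)
      norm_num
      linarith
  · push Not at hcase
    obtain ⟨hn1, hn2⟩ := hcase
    have hnv : ¬ Group.IsVirtuallyNilpotent (commutator H) :=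
      hnil1.resolve_left fun h => hn1 h
    rcases S.eq_empty_or_nonempty with hS | hne
    · left
      have htriv : ∀ x : G, x = 1 := by
        intro x
        have hx : x ∈ closure S := by rw [hgen]; exact mem_top x
        rw [hS, Subgroup.closure_empty, Subgroup.mem_bot] at hx
        exact hx
      have hs : Subsingleton G := ⟨fun a b => by rw [htriv a, htriv b]⟩
      exact ⟨⊤, Group.isNilpotent_of_subsingleton, inferInstance⟩
    right
    set T := W963.GE.TT S H d with hT
    have hTfin : T.Finite := W963.GE.TT_finite S hfin H d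
    have hTgen : closure T = ⊤ := W963.GE.TT_gen S hgen H hH hd
    have h1T : (1 : H) ∈ T := by
      show ((1 : H) : G) ∈ (insert 1 S) ^ (2 * d - 1)
      have : (1 : G) ∈ insert 1 S := Set.mem_insert _ _
      simpa using Set.pow_mem_pow (n := 2 * d - 1) this
    have hinv1 : (insert 1 S)⁻¹ = insert 1 S := by
      rw [Set.inv_insert, inv_one, hsym]
    have hTinv : T⁻¹ = T := by
      ext x
      rw [Set.mem_inv]
      constructor
      · intro hx
        have := inv_mem_pow hinv1 (show ((x⁻¹ : H) : G) ∈ (insert 1 S) ^ (2 * d - 1) from hx)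
        rw [← coe_inv, inv_inv] at this
        exact this
      · intro hx
        exact inv_mem_pow hinv1 (show (x : G) ∈ (insert 1 S) ^ (2 * d - 1) from hx)
    have h := level_two T hTfin h1T hTinv hTgen hnil2 hnv hE' hμ hP'
    have h4 := W963.GE.rho_TT S hfin hne H hd1
    have he : ((2 * d - 1 : ℕ) : ℝ) = 2 * d - 1 := by
      rw [Nat.cast_sub (by omega)]; push_cast; ring
    rw [he] at h4
    have h5 := h.trans h4
    rw [← div_div, div_le_iff₀ hpos, mul_comm (H746UG.rho S)]
    exact h5

end Pool.Agent.Helper4X
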