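import Pool.Agent.Helper4X.Cnt
import Pool.Agent.Helper4W.Core
import Pool.Agent.R701.UG.Gap

/-!
# Growth bounds in terms of the eigenvalues of elements of the derived subgroup

Helper4, page MP_d69e80_al.
-/

set_option autoImplicit false

namespace Pool.Agent.Helper4X

open scoped Pointwise commutatorElement TensorProduct
open Subgroup Polynomial Filter Topology
open Pool.Agent.Helper4W Pool.Agent.N600.G3
open Pool.Agent.W963.GE (UnitNotRoot MM)
open Pool.Agent.TH53.UG (act act_of aeval_comm)
open Pool.Agent.Helper111.EN.NSc (NS NS_ext NS_of_nilpotent_fg NS_top_iff fg_map_subtype_iff)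

universe u

/-- the number `(3 + exp (-(1 - 1 / μ²))) / 4` -/
noncomputable def thM (μ : ℝ) : ℝ := (3 + Real.exp (-(1 - 1 / μ ^ 2))) / 4

lemma thM_pos (μ : ℝ) : 0 < thM μ := by
  unfold thM
  have := Real.exp_pos (-(1 - 1 / μ ^ 2))
  positivity

lemma thM_ge (μ : ℝ) : 3 / 4 ≤ thM μ := by
  unfold thM
  have := Real.exp_pos (-(1 - 1 / μ ^ 2))
  linarith

lemma thM_le_one {μ : ℝ} (hμ : 1 ≤ μ) : thM μ ≤ 1 := by
  unfold thM
  have h1 : 1 / μ ^ 2 ≤ 1 := by
    rw [div_le_one (by positivity)]
    nlinarith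
  have h2 : Real.exp (-(1 - 1 / μ ^ 2)) ≤ 1 := Real.exp_le_one_iff.2 (by linarith)
  linarith

lemma aM_le {μ : ℝ} (hμ : 1 ≤ μ) (x : ℂ) (hx : μ ≤ MM x) : 2 * (3 + aM x) ≤ 8 * thM μ := by
  unfold thM aM
  have h3 : 1 / MM x ^ 2 ≤ 1 / μ ^ 2 := by
    apply one_div_le_one_div_of_le (by positivity)
    gcongr
  have h4 : Real.exp (-(1 - 1 / MM x ^ 2)) ≤ Real.exp (-(1 - 1 / μ ^ 2)) :=
    Real.exp_le_exp.2 (by linarith)
  linarith

lemma thM_log {μ : ℝ} (hμ : 1 ≤ μ) : min 1 (Real.log μ) / 8 ≤ -Real.log (thM μ) := by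
  have hM0 : 0 < μ := by linarith
  set t := Real.log μ with ht
  have ht0 : 0 ≤ t := Real.log_nonneg hμ
  have h1 : (1 - Real.exp (-(1 - 1 / μ ^ 2))) / 4 ≤ -Real.log (thM μ) := by
    have := Real.log_le_sub_one_of_pos (thM_pos μ)
    unfold thM at this ⊢
    linarith
  set y := 1 - 1 / μ ^ 2 with hy
  have hy' : y = 1 - Real.exp (-(2 * t)) := by
    rw [hy]
    congr 1
    rw [Real.exp_neg, two_mul, Real.exp_add, ht, Real.exp_log hM0]
    rw [one_div, sq]
  have hconv : ∀ s : ℝ, 0 ≤ s → s ≤ 1 → ∀ z : ℝ, Real.exp (-(s * z)) ≤ 1 - s * (1 - Real.exp (-z)) := by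
    intro s hs0 hs1 z
    have hc := convexOn_exp.2 (Set.mem_univ (0 : ℝ)) (Set.mem_univ (-z : ℝ))
      (show (0 : ℝ) ≤ 1 - s by linarith) hs0 (by ring)
    simp only [smul_eq_mul, mul_zero, zero_add, Real.exp_zero, mul_one] at hc
    have h2 : s * -z = -(s * z) := by ring
    rw [h2] at hc
    linarith
  have he1 : Real.exp (-1) ≤ 0.37 := by
    have := Real.exp_one_gt_d9
    rw [Real.exp_neg, inv_eq_one_div, div_le_iff₀ (Real.exp_pos 1)]
    linarith
  have he2 : Real.exp (-2) ≤ 0.1369 := by
    have h3 : Real.exp (-2) = Real.exp (-1) ^ 2 := by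
      rw [← Real.exp_nat_mul]; norm_num
    rw [h3]
    have h4 := Real.exp_pos (-1)
    nlinarith
  have hyge : 0.86 * min 1 t ≤ y := by
    rw [hy']
    have hm0 : 0 ≤ min 1 t := le_min zero_le_one ht0
    have h3 := hconv (min 1 t) hm0 (min_le_left _ _) 2
    have h4 : Real.exp (-(2 * t)) ≤ Real.exp (-(min 1 t * 2)) := by
      apply Real.exp_le_exp.2
      have := min_le_right 1 t
      linarith
    nlinarith
  have hy1 : y ≤ 1 := by
    rw [hy']
    have := Real.exp_pos (-(2 * t))
    linarith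
  have hy0 : 0 ≤ y := by
    have hm0 : 0 ≤ min 1 t := le_min zero_le_one ht0
    linarith
  have h5 : Real.exp (-y) ≤ 1 - 0.63 * y := by
    have h6 := hconv y hy0 hy1 1
    rw [mul_one] at h6
    have h7 : y * (1 - Real.exp (-1)) ≥ 0.63 * y := by nlinarith
    linarith
  have h6 : min 1 t / 2 ≤ 1 - Real.exp (-y) := by
    have hm0 : 0 ≤ min 1 t := le_min zero_le_one ht0
    linarith
  linarith

/-- zero sums of lazy digits for an element of a field that is not a root of unity -/
theorem lazy_track {F : Type*} [Field F] [DecidableEq F] [CharZero F] (u : F) (hu0 : u ≠ 0)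
    (hroot : ∀ m > 0, u ^ m ≠ 1) :
    (∀ (n : ℕ) (κ : F), κ ≠ 0 → ((Finset.univ.filter fun f : Fin n → Bool × Bool × Bool =>
        ∑ i, d3 (f i) • (κ * u ^ (i : ℕ)) = 0).card : ℝ) ≤ 6 ^ n) ∨
    ∃ x : ℂ, UnitNotRoot x ∧ (∀ p : ℤ[X], aeval u p = 0 → aeval x p = 0) ∧
      ∀ (n : ℕ) (κ : F), κ ≠ 0 → ((Finset.univ.filter fun f : Fin n → Bool × Bool × Bool =>
        ∑ i, d3 (f i) • (κ * u ^ (i : ℕ)) = 0).card : ℝ) ≤ (2 * (3 + aM x)) ^ n := by
  classical
  have hκ : ∀ (n : ℕ) (κ : F), κ ≠ 0 → ∀ f : Fin n → Bool × Bool × Bool,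
      ∑ i, d3 (f i) • (κ * u ^ (i : ℕ)) = 0 → ∑ i, (d3 (f i) : F) * u ^ (i : ℕ) = 0 := by
    intro n κ hκ f hf
    have e : ∑ i, d3 (f i) • (κ * u ^ (i : ℕ)) = κ * ∑ i, (d3 (f i) : F) * u ^ (i : ℕ) := by
      rw [Finset.mul_sum]
      refine Finset.sum_congr rfl fun i _ => ?_
      rw [zsmul_eq_mul]; ring
    rw [e] at hf
    exact (mul_eq_zero.1 hf).resolve_left hκ
  by_cases hu : IsIntegral ℤ u ∧ IsIntegral ℤ u⁻¹
  · right
    let _ : Algebra ℚ F := DivisionRing.toRatAlgebra
    have hQ : IsIntegral ℚ u := hu.1.tower_top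
    let K := IntermediateField.adjoin ℚ {u}
    have hfd : FiniteDimensional ℚ K := IntermediateField.adjoin.finiteDimensional hQ
    have halg : Algebra.IsAlgebraic ℚ K := Algebra.IsAlgebraic.of_finite ℚ K
    let φ : K →ₐ[ℚ] ℂ := IsAlgClosed.lift
    let g : K := ⟨u, IntermediateField.mem_adjoin_simple_self ℚ u⟩
    have hg : ((g : K) : F) = u := rfl
    have hg0 : g ≠ 0 := by
      intro h
      apply hu0
      rw [← hg, h]; rfl
    have hinjK : Function.Injective (algebraMap K F) := (algebraMap K F).injective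
    have hgint : IsIntegral ℤ g := by
      have h1 : IsIntegral ℤ (algebraMap K F g) := hu.1
      exact (isIntegral_algHom_iff ((algebraMap K F).toIntAlgHom) hinjK).1 h1
    have hgint' : IsIntegral ℤ g⁻¹ := by
      have h1 : IsIntegral ℤ (algebraMap K F g⁻¹) := by
        rw [map_inv₀]
        exact hu.2
      exact (isIntegral_algHom_iff ((algebraMap K F).toIntAlgHom) hinjK).1 h1
    refine ⟨φ g, ⟨?_, ?_, ?_, ?_⟩, ?_, ?_⟩
    · exact (map_ne_zero φ).2 hg0
    · exact hgint.map (φ.toRingHom.toIntAlgHom)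
    · rw [← map_inv₀]
      exact hgint'.map (φ.toRingHom.toIntAlgHom)
    · intro m hm h
      rw [← map_pow, ← map_one φ] at h
      have h2 : g ^ m = 1 := φ.toRingHom.injective h
      apply hroot m hm
      have h3 := congrArg (algebraMap K F) h2
      rw [map_pow, map_one] at h3
      exact h3
    · intro p hp
      have h1 : aeval g p = 0 := by
        apply hinjK
        rw [map_zero]
        have h2 := Polynomial.aeval_algHom_apply ((algebraMap K F).toIntAlgHom) g p
        have h3 : ((algebraMap K F).toIntAlgHom) g = u := rfl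
        rw [h3] at h2
        have h4 : ((algebraMap K F).toIntAlgHom) ((aeval g) p) = 0 := h2.symm.trans hp
        exact h4
      have h2 := Polynomial.aeval_algHom_apply (φ.toRingHom.toIntAlgHom) g p
      have h3 : (φ.toRingHom.toIntAlgHom) g = φ g := rfl
      rw [h3, h1, map_zero] at h2
      exact h2
    · intro n κ hκ0
      refine le_trans ?_ (lazy_unit (φ g) (hgint.map (φ.toRingHom.toIntAlgHom)) n)
      have hsub : (Finset.univ.filter fun f : Fin n → Bool × Bool × Bool =>
          ∑ i, d3 (f i) • (κ * u ^ (i : ℕ)) = 0) ⊆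
          (Finset.univ.filter fun f : Fin n → Bool × Bool × Bool =>
          ∑ i, (d3 (f i) : ℂ) * (φ g) ^ (i : ℕ) = 0) := by
        intro f hf
        simp only [Finset.mem_filter, Finset.mem_univ, true_and] at hf ⊢
        have h1 := hκ n κ hκ0 f hf
        have h2 : ∑ i, (d3 (f i) : K) * g ^ (i : ℕ) = 0 := by
          apply hinjK
          rw [map_zero, ← h1, map_sum]
          refine Finset.sum_congr rfl fun i _ => ?_
          rw [map_mul, map_pow, map_intCast]
          rfl
        have h3 := congrArg φ h2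
        rw [map_zero, map_sum] at h3
        rw [← h3]
        refine Finset.sum_congr rfl fun i _ => ?_
        rw [map_mul, map_pow, map_intCast]
      exact_mod_cast Finset.card_le_card hsub
  · left
    intro n κ hκ0
    have hsub : (Finset.univ.filter fun f : Fin n → Bool × Bool × Bool =>
        ∑ i, d3 (f i) • (κ * u ^ (i : ℕ)) = 0) ⊆
        (Finset.univ.filter fun f : Fin n → Bool × Bool × Bool => ∀ i, d3 (f i) = 0) := by
      intro f hf
      simp only [Finset.mem_filter, Finset.mem_univ, true_and] at hf ⊢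
      exact lazy_nonunit u hu0 hu n f (hκ n κ hκ0 f hf)
    have h1 := Finset.card_le_card hsub
    rw [card_zero] at h1
    exact_mod_cast h1

/-- the property `P` for all units (not roots of unity) that are zeros of all the integral
polynomials that annihilate some class in `(M')^ab` for some `t ∈ M` -/
def AnnProp (M : Type*) [Group M] (P : ℂ → Prop) : Prop :=
  ∀ (t : M) (b : Additive (Abelianization (commutator M))) (x : ℂ), UnitNotRoot x →
    (∀ p : ℤ[X], (aeval (act (commutator M) t) p) b = 0 → aeval x p = 0) → P x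

lemma AnnProp.of_surj {M M' : Type*} [Group M] [Group M'] (ψ : M →* M')
    (hψ : Function.Surjective ψ) {P : ℂ → Prop} (h : AnnProp M P) : AnnProp M' P := by
  have hle : ∀ n : commutator M, ψ (n : M) ∈ commutator M' := by
    intro n
    have h1 : (commutator M).map ψ ≤ commutator M' := by
      rw [_root_.commutator_def, _root_.commutator_def, map_commutator]
      exact commutator_mono le_top le_top
    exact h1 ⟨n, n.2, rfl⟩
  let ψN : commutator M →* commutator M' :=
    { toFun := fun n => ⟨ψ (n : M), hle n⟩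
      map_one' := by
        apply Subtype.ext
        show ψ ((1 : commutator M) : M) = 1
        rw [OneMemClass.coe_one, map_one]
      map_mul' := by
        intro a b
        apply Subtype.ext
        show ψ ((a * b : commutator M) : M) = ψ a * ψ b
        rw [← map_mul]; rfl }
  have hψN : Function.Surjective ψN := by
    rintro ⟨y, hy⟩
    have h1 : commutator M' ≤ (commutator M).map ψ := by
      rw [_root_.commutator_def, _root_.commutator_def, map_commutator, ← MonoidHom.range_eq_map,
        MonoidHom.range_eq_top.2 hψ]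
    obtain ⟨x, hx, he⟩ := h1 hy
    exact ⟨⟨x, hx⟩, Subtype.ext he⟩
  let φ : Additive (Abelianization (commutator M)) →ₗ[ℤ] Additive (Abelianization (commutator M')) :=
    (MonoidHom.toAdditive (Abelianization.map ψN)).toIntLinearMap
  have hφ : ∀ n : commutator M, φ (Additive.ofMul (Abelianization.of n)) =
      Additive.ofMul (Abelianization.of (ψN n)) := by
    intro n
    simp [φ]
  intro t' b' x hx hp
  obtain ⟨t, rfl⟩ := hψ t'
  obtain ⟨n', hn'⟩ : ∃ n' : commutator M', Additive.ofMul (Abelianization.of n') = b' := by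
    obtain ⟨n', hn'⟩ := QuotientGroup.mk_surjective b'.toMul
    exact ⟨n', by rw [← ofMul_toMul b', ← hn']; rfl⟩
  obtain ⟨n, rfl⟩ := hψN n'
  refine h t (Additive.ofMul (Abelianization.of n)) x hx fun p hp0 => hp p ?_
  have hc : ∀ m, φ (act (commutator M) t m) = act (commutator M') (ψ t) (φ m) := by
    intro m
    obtain ⟨a, ha⟩ : ∃ a : commutator M, Additive.ofMul (Abelianization.of a) = m := by
      obtain ⟨a, ha⟩ := QuotientGroup.mk_surjective m.toMul
      exact ⟨a, by rw [← ofMul_toMul m, ← ha]; rfl⟩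
    rw [← ha, act_of, hφ, hφ, act_of]
    congr 2
    apply Subtype.ext
    show ψ (t * (a : M) * t⁻¹) = ψ t * ψ a * (ψ t)⁻¹
    rw [map_mul, map_mul, map_inv]
  rw [← hn', ← hφ, ← aeval_comm φ hc p, hp0, map_zero]

/-- growth when the second derived subgroup is finitely generated and abelian and the derived
subgroup is not virtually nilpotent -/
theorem reducT (G : Type u) [Group G] (T : Set G)
    (hfin : T.Finite) (h1T : 1 ∈ T) (hinv : T⁻¹ = T) (hgen : closure T = ⊤)
    (hFG : (commutator G).FG)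
    (habel : ∀ x ∈ commutator (commutator G), ∀ y ∈ commutator (commutator G), x * y = y * x)
    (hfg : (commutator (commutator G)).FG)
    (hnv : ¬ Group.IsVirtuallyNilpotent (commutator G)) {μ : ℝ} (hμ : 1 ≤ μ)
    (hE : AnnProp (commutator G) fun x => μ ≤ MM x) :
    ∃ K : ℕ, 0 < K ∧ ∀ R : ℕ,
      (K : ℝ) / 2 * R * (-Real.log (thM μ)) ≤ Real.log (Nat.card ↥(T ^ (22 * K * R))) := by
  classical
  have : Group.FG (commutator G) := (Group.fg_iff_subgroup_fg _).2 hFG
  obtain ⟨F, iF, hchar, χ, f, hf1, hf2, ⟨x0, hx0, hfx0⟩, m0, hm0⟩ :=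
    alg (commutator G) habel hfg hnv
  -- the functional on the abelianization
  have hf0 : f 1 = 0 := f_one hf1
  let fm : commutator (commutator G) →* Multiplicative F :=
    { toFun := fun a => Multiplicative.ofAdd (f a)
      map_one' := by
        show Multiplicative.ofAdd (f ((1 : commutator (commutator G)) : commutator G)) = 1
        rw [OneMemClass.coe_one, hf0]; rfl
      map_mul' := by
        intro a b
        show Multiplicative.ofAdd (f (((a * b : commutator (commutator G))) : commutator G)) = _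
        rw [Subgroup.coe_mul, hf1 _ a.2 _ b.2]; rfl }
  let fb : Additive (Abelianization (commutator (commutator G))) →ₗ[ℤ] F :=
    (MonoidHom.toAdditiveLeft (Abelianization.lift fm)).toIntLinearMap
  have hfb : ∀ a : commutator (commutator G),
      fb (Additive.ofMul (Abelianization.of a)) = f a := by
    intro a
    simp [fb, fm]
  -- few zero sums
  have hfew : ∀ m : commutator G, ¬ IsOfFinOrder (χ m) → Few (thM μ) ((χ m : Fˣ) : F) := by
    intro m hm
    have hroot : ∀ k > 0, ((χ m : Fˣ) : F) ^ k ≠ 1 := by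
      intro k hk h
      apply hm
      rw [isOfFinOrder_iff_pow_eq_one]
      refine ⟨k, hk, Units.ext ?_⟩
      rw [Units.val_pow_eq_pow_val, Units.val_one]
      exact h
    rcases lazy_track ((χ m : Fˣ) : F) (Units.ne_zero _) hroot with h | ⟨x, hx, hp, h⟩
    · intro n κ hκ
      refine (h n κ hκ).trans (pow_le_pow_left₀ (by norm_num) ?_ n)
      have := thM_ge μ
      linarith
    · have hμx : μ ≤ MM x := by
        refine hE m (Additive.ofMul (Abelianization.of ⟨x0, hx0⟩)) x hx fun p hp0 => hp p ?_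
        have hc : ∀ z, fb (act (commutator (commutator G)) m z) =
            Algebra.lmul ℤ F ((χ m : Fˣ) : F) (fb z) := by
          intro z
          obtain ⟨a, ha⟩ : ∃ a : commutator (commutator G),
              Additive.ofMul (Abelianization.of a) = z := by
            obtain ⟨a, ha⟩ := QuotientGroup.mk_surjective z.toMul
            exact ⟨a, by rw [← ofMul_toMul z, ← ha]; rfl⟩
          rw [← ha, act_of, hfb, hfb]
          show f (m * (a : commutator G) * m⁻¹) = _
          rw [hf2 m _ a.2]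
          rfl
        have h1 := aeval_comm fb hc p (Additive.ofMul (Abelianization.of ⟨x0, hx0⟩))
        rw [hp0, map_zero, hfb, Polynomial.aeval_algHom_apply] at h1
        have h2 : aeval ((χ m : Fˣ) : F) p * f x0 = 0 := h1.symm
        exact (mul_eq_zero.1 h2).resolve_right hfx0
      intro n κ hκ
      refine (h n κ hκ).trans (pow_le_pow_left₀ ?_ (aM_le hμ x hμx) n)
      have := aM_pos x
      linarith
  -- a short commutator
  have hex : ∃ (g : G) (c : commutator G), (c : G) ∈ CT T ∧ ¬ IsOfFinOrder (χ (cj g c)) := by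
    by_contra hcon
    push Not at hcon
    let Q : Subgroup G :=
      { carrier := {x | ∃ hx : x ∈ commutator G, ∀ g : G, χ (cj g ⟨x, hx⟩) ∈ CommGroup.torsion Fˣ}
        mul_mem' := by
          rintro a b ⟨ha, ha'⟩ ⟨hb, hb'⟩
          refine ⟨mul_mem ha hb, fun g => ?_⟩
          have : (⟨a * b, mul_mem ha hb⟩ : commutator G) = ⟨a, ha⟩ * ⟨b, hb⟩ := rfl
          rw [this, map_mul, map_mul]
          exact mul_mem (ha' g) (hb' g)
        one_mem' := by
          refine ⟨one_mem _, fun g => ?_⟩
          have : (⟨1, one_mem _⟩ : commutator G) = 1 := rfl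
          rw [this, map_one, map_one]
          exact one_mem _
        inv_mem' := by
          rintro a ⟨ha, ha'⟩
          refine ⟨inv_mem ha, fun g => ?_⟩
          have : (⟨a⁻¹, inv_mem ha⟩ : commutator G) = (⟨a, ha⟩ : commutator G)⁻¹ := rfl
          rw [this, map_inv, map_inv]
          exact inv_mem (ha' g) }
    have hQn : Q.Normal := by
      refine ⟨?_⟩
      rintro a ⟨ha, ha'⟩ h
      refine ⟨(commutator_normal ⊤ ⊤).conj_mem a ha h, fun g => ?_⟩
      have e : (⟨h * a * h⁻¹, (commutator_normal ⊤ ⊤).conj_mem a ha h⟩ : commutator G) =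
          cj h ⟨a, ha⟩ := rfl
      rw [e, cj_cj]
      exact ha' (g * h)
    have hle : commutator G ≤ Q := by
      refine (comm_le hgen).trans (normalClosure_le_normal ?_)
      intro x hx
      exact ⟨CT_sub T hx, fun g => hcon g ⟨x, CT_sub T hx⟩ hx⟩
    obtain ⟨hm, hm'⟩ := hle m0.2
    apply hm0
    have := hm' 1
    rw [cj_one] at this
    exact this
  obtain ⟨g, c, hc, hvc⟩ := hex
  let χ' : commutator G →* Fˣ := χ.comp (cj g)
  let f' : commutator G → F := fun x => f (cj g x)
  have hf1' : ∀ x ∈ commutator (commutator G), ∀ y ∈ commutator (commutator G),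
      f' (x * y) = f' x + f' y := by
    intro x hx y hy
    show f (cj g (x * y)) = _
    rw [map_mul, hf1 _ (cj_comm_mem g hx) _ (cj_comm_mem g hy)]
  have hf2' : ∀ m, ∀ x ∈ commutator (commutator G), f' (m * x * m⁻¹) = (χ' m : F) * f' x := by
    intro m x hx
    show f (cj g (m * x * m⁻¹)) = _
    rw [map_mul, map_mul, map_inv, hf2 _ _ (cj_comm_mem g hx)]
    rfl
  have hcm : ∀ m, c * m * c⁻¹ * m⁻¹ ∈ commutator (commutator G) := fun m =>
    commutator_mem_commutator (mem_top c) (mem_top m)
  have hcr : Crossed χ' (fun m => f' (c * m * c⁻¹ * m⁻¹)) := by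
    intro m m'
    have e : c * (m * m') * c⁻¹ * (m * m')⁻¹ =
        (c * m * c⁻¹ * m⁻¹) * (m * (c * m' * c⁻¹ * m'⁻¹) * m⁻¹) := by group
    show f' (c * (m * m') * c⁻¹ * (m * m')⁻¹) = _
    rw [e, hf1' _ (hcm m) _ (Normal.conj_mem inferInstance _ (hcm m') m), hf2' _ _ (hcm m')]
  refine thaT G T hfin h1T hinv hgen F (thM μ) (thM_pos μ) (thM_le_one hμ) χ' _ hcr
    (fun m h => hfew (cj g m) h) c hc ?_ hvc ?_
  · show f' (c * c * c⁻¹ * c⁻¹) = 0
    have e : c * c * c⁻¹ * c⁻¹ = 1 := by group
    rw [e]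
    show f (cj g 1) = 0
    rw [map_one]
    exact hf0
  · refine ⟨cj g⁻¹ x0, ?_⟩
    have h1 : cj g⁻¹ x0 ∈ commutator (commutator G) := cj_comm_mem _ hx0
    have h2 : f' (cj g⁻¹ x0) = f x0 := by
      show f (cj g (cj g⁻¹ x0)) = _
      rw [cj_cj, mul_inv_cancel, cj_one]
    show f' (c * cj g⁻¹ x0 * c⁻¹ * (cj g⁻¹ x0)⁻¹) ≠ 0
    rw [hf1' _ (Normal.conj_mem inferInstance _ h1 c) _ (inv_mem h1), hf2' _ _ h1]
    have h3 : f' ((cj g⁻¹ x0)⁻¹) = - f' (cj g⁻¹ x0) := by
      have h4 := hf1' _ h1 _ (inv_mem h1)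
      rw [mul_inv_cancel] at h4
      have h5 : f' 1 = 0 := by
        show f (cj g 1) = 0
        rw [map_one]
        exact hf0
      rw [h5] at h4
      exact (eq_neg_of_add_eq_zero_right h4.symm)
    rw [h3, h2]
    have h6 : (χ' c : F) * f x0 + -f x0 = ((χ' c : F) - 1) * f x0 := by ring
    rw [h6]
    refine mul_ne_zero (sub_ne_zero.2 ?_) hfx0
    intro h7
    apply hvc
    have h8 : χ' c = 1 := Units.ext h7
    show IsOfFinOrder (χ' c)
    rw [h8]
    exact IsOfFinOrder.one

end Pool.Agent.Helper4X
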